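import Mathlib
import Pool.Agent.H97.Nfam

open Finset Filter

namespace Pool.Agent.Results.MP_6095cf_an.Counter

section
variable {X : Type} [NormedAddCommGroup X] [NormedSpace ℝ X] (e : ℕ → X) (f : ℕ → StrongDual ℝ X)

/-- coordinate projection -/
noncomputable def P (A : Finset ℕ) (x : X) : X := ∑ i ∈ A, f i x • e i

/-- `A` is a greedy set for `x` -/
def Greedy (x : X) (A : Finset ℕ) : Prop := ∀ i ∈ A, ∀ j ∉ A, |f j x| ≤ |f i x|

/-- semi-normalized Markushevich basis with bounded partial sums -/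
def IsSchauder : Prop :=
  Dense (Submodule.span ℝ (Set.range e) : Set X) ∧ (∀ i j, f i (e j) = if i = j then 1 else 0) ∧
    (∀ x, (∀ i, f i x = 0) → x = 0) ∧ (∃ C, ∀ i, ‖e i‖ ≤ C ∧ ‖f i‖ ≤ C) ∧
    ∃ C : ℝ, ∀ m x, ‖P e f (range m) x‖ ≤ C * ‖x‖

def QuasiGreedy (n : ℕ → ℕ) : Prop :=
  ∃ C : ℝ, ∀ x k A, A.card = n k → Greedy f x A → ‖P e f A x‖ ≤ C * ‖x‖

def PartiallyGreedy (n : ℕ → ℕ) : Prop :=
  ∃ C : ℝ, ∀ x k A, A.card = n k → Greedy f x A →
    ‖x - P e f A x‖ ≤ C * ‖x - P e f (range (n k)) x‖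

def OrderConservative (n : ℕ → ℕ) : Prop :=
  ∃ C : ℝ, ∀ (k : ℕ) (A B : Finset ℕ), A.card = B.card → (∀ a ∈ A, a < n k) →
    (∀ b ∈ B, n k ≤ b) → ‖∑ i ∈ A, e i‖ ≤ C * ‖∑ i ∈ B, e i‖
end

def q : ℕ → ℕ
  | 0 => 1
  | i + 1 => 4 * (i + 1) ^ 2 * q i

theorem q_pos (i : ℕ) : 0 < q i := by
  induction i with
  | zero => exact one_pos
  | succ i ih => rw [q]; positivity

theorem q_two (i : ℕ) : 4 * q i ≤ q (i + 1) := by
  rw [q]; exact Nat.mul_le_mul_right _ (Nat.le_mul_of_pos_right _ (by positivity))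

theorem q_mono : StrictMono q := strictMono_nat_of_lt_succ fun i => by
  have := q_two i; have := q_pos i; omega

theorem q_gap {i j : ℕ} (h : i + 1 < j) : q (i + 1) ^ 2 + q (i + 1) * q i ≤ q j ^ 2 := by
  have h1 := (q_two (i + 1)).trans (q_mono.monotone h)
  have h2 := q_two i
  nlinarith

def Φ : Set (Finset ℕ × (ℕ → ℝ)) := {φ | ∑ l ∈ φ.1, φ.2 l ^ 2 ≤ 1 ∨ ∃ i,
  (∀ l ∈ φ.1, |φ.2 l| ≤ 1 / q i ∧ q (i + 1) ^ 2 ≤ l) ∧ φ.1.card ≤ q (i + 1) * q i ∧
    ((∀ l ∈ φ.1, q (i + 1) ^ 2 + q (i + 1) * q i ≤ l) ∨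
      (∃ r, φ.1 = Ico (q (i + 1) ^ 2) r) ∧ φ.2 = fun _ => 1 / (q i : ℝ))}

theorem alt (a k : ℕ) :
    ∑ l ∈ Ico a (a + k), (-1 : ℝ) ^ l = (-1) ^ a * if Even k then 0 else 1 := by
  simp only [sum_Ico_eq_sum_range, pow_add, ← mul_sum, neg_one_geom_sum, add_tsub_cancel_left]

theorem cs (S : Finset ℕ) (g h : ℕ → ℝ) (hg : ∑ l ∈ S, g l ^ 2 ≤ 1) (hh : ∀ l ∈ S, |h l| ≤ 1)
    {c : ℝ} (hc : 0 ≤ c) (hc' : S.card ≤ c ^ 2) : |∑ l ∈ S, g l * h l| ≤ c := by
  refine abs_le_of_sq_le_sq ((sum_mul_sq_le_sq_mul_sq S g h).trans ?_) hc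
  have : ∑ l ∈ S, h l ^ 2 ≤ S.card := by
    simpa using sum_le_card_nsmul S _ 1 fun l hl => (sq_le_one_iff_abs_le_one _).2 (hh l hl)
  exact (mul_le_of_le_one_left (by positivity) hg).trans (this.trans hc')

theorem bd (S : Finset ℕ) (g h : ℕ → ℝ) {a b : ℝ} (hg : ∀ l ∈ S, |g l| ≤ a)
    (hh : ∀ l ∈ S, |h l| ≤ b) : |∑ l ∈ S, g l * h l| ≤ S.card * (a * b) := by
  refine (abs_sum_le_sum_abs _ _).trans ?_
  rw [← nsmul_eq_mul]
  exact sum_le_card_nsmul S _ (a * b) fun l hl => by
    rw [abs_mul]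
    exact mul_le_mul (hg l hl) (hh l hl) (abs_nonneg _) ((abs_nonneg _).trans (hg l hl))

theorem result : ∃ n : ℕ → ℕ, StrictMono n ∧ 0 < n 0 ∧
    (∀ L : ℕ, ∃ᶠ k in atTop, L * n k ≤ n (k + 1)) ∧
    ∃ (X : Type) (_ : NormedAddCommGroup X) (_ : NormedSpace ℝ X) (_ : CompleteSpace X)
      (e : ℕ → X) (f : ℕ → StrongDual ℝ X), IsSchauder e f ∧ QuasiGreedy e f n ∧
      OrderConservative e n ∧ ¬ PartiallyGreedy e f n := by
  have hq : ∀ i, (0:ℝ) < q i := fun i => Nat.cast_pos.2 (q_pos i)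
  obtain ⟨X, _, _, _, e, f, hd, hb, he, hf, hle, hge⟩ := Pool.Agent.H97.Nfam.space Φ (by
    rintro φ (h | ⟨i, h, -⟩) l hl
    · exact (sq_le_one_iff_abs_le_one _).1
        ((single_le_sum (f := fun l => φ.2 l ^ 2) (fun _ _ => sq_nonneg _) hl).trans h)
    · exact (h l hl).1.trans ((div_le_one (hq i)).2 (Nat.one_le_cast.2 (q_pos i))))
    fun l => Or.inl (by simp)
  have hc : ∀ (A : Finset ℕ) (c : ℕ → ℝ) l, f l (∑ i ∈ A, c i • e i) = if l ∈ A then c l else 0 :=
    fun A c l => by simp [hb]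
  have hs : ∀ (S A : Finset ℕ) (g c : ℕ → ℝ),
      ∑ l ∈ S, g l * f l (∑ i ∈ A, c i • e i) = ∑ l ∈ S ∩ A, g l * c l := fun S A g c => by
    simp only [hc, mul_ite, mul_zero, sum_ite_mem]
  have sub : ∀ (φ : Finset ℕ × (ℕ → ℝ)) (A : Finset ℕ), ∑ l ∈ φ.1, φ.2 l ^ 2 ≤ 1 →
      ∑ l ∈ φ.1 ∩ A, φ.2 l ^ 2 ≤ 1 := fun φ A h =>
    (sum_le_sum_of_subset_of_nonneg inter_subset_left fun _ _ _ => sq_nonneg _).trans h
  refine ⟨fun i => q i ^ 2, fun i j h => Nat.pow_lt_pow_left (q_mono h) two_ne_zero, one_pos,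
    fun L => ((eventually_ge_atTop L).mono fun k hk => ?_).frequently, X, inferInstance,
    inferInstance, inferInstance, e, f, ⟨hd, hb, fun x hx => ?_, ⟨1, fun i => ⟨he i, hf i⟩⟩, 1,
    fun m x => ?_⟩, ⟨2, fun x j A hA hG => ?_⟩, ⟨1, fun j A B hAB hA hB => ?_⟩, ?_⟩
  · beta_reduce
    rw [q, mul_pow]
    exact Nat.mul_le_mul_right _ ((hk.trans (by nlinarith : k ≤ 4 * (k + 1) ^ 2)).trans
      (Nat.le_self_pow two_ne_zero _))
  · exact norm_le_zero_iff.1 (hge x 0 le_rfl fun φ _ => by simp [hx])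
  · rw [one_mul]
    refine hge _ _ (norm_nonneg _) fun φ hφ => ?_
    rw [P, hs]
    refine hle x (φ.1 ∩ range m, φ.2) ?_
    rcases hφ with h | ⟨i, h1, h2, h3⟩
    · exact Or.inl (sub φ _ h)
    · refine Or.inr ⟨i, fun l hl => h1 l (mem_inter.1 hl).1,
        (card_le_card inter_subset_left).trans h2, h3.imp (fun h l hl => h l (mem_inter.1 hl).1)
        fun ⟨⟨r, hr⟩, h⟩ => ⟨⟨min r m, ?_⟩, h⟩⟩
      ext l; simp [hr, and_assoc]
  · refine hge _ _ (by positivity) fun φ hφ => ?_
    rw [P, hs]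
    have two : ∀ {a : ℝ}, a ≤ ‖x‖ → a ≤ 2 * ‖x‖ := fun h => by linarith [norm_nonneg x]
    rcases hφ with h | ⟨i, h1, h2, h3 | h3⟩
    · exact two (hle x (φ.1 ∩ A, φ.2) (Or.inl (sub φ _ h)))
    · exact two (hle x (φ.1 ∩ A, φ.2) (Or.inr ⟨i, fun l hl => h1 l (mem_inter.1 hl).1,
        (card_le_card inter_subset_left).trans h2, Or.inl fun l hl => h3 l (mem_inter.1 hl).1⟩))
    rcases le_or_gt j i with hj | hj
    · refine two (hle x (φ.1 ∩ A, φ.2) (Or.inl ?_))
      have : ((φ.1 ∩ A).card : ℝ) ≤ q i ^ 2 := by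
        exact_mod_cast (card_le_card inter_subset_right).trans
          (hA.le.trans (Nat.pow_le_pow_left (q_mono.monotone hj) 2))
      simp only [h3.2, sum_const, nsmul_eq_mul, one_div_pow, mul_one_div]
      exact (div_le_one (by have := hq i; positivity)).2 this
    · have h4 : ∀ l ∈ φ.1 \ A, |f l x| ≤ ‖x‖ / q j := fun l hl => by
        have h5 := hle x (A, fun l => (SignType.sign (f l x) : ℝ) / q j) (Or.inl (by
          refine (sum_le_card_nsmul A _ (1 / (q j : ℝ) ^ 2) fun l _ => ?_).trans ?_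
          · rw [div_pow]; gcongr
            rcases lt_trichotomy (f l x) 0 with h | h | h <;> simp [h]
          · rw [hA, nsmul_eq_mul, mul_one_div]; push_cast
            rw [div_self (by have := hq j; positivity)]))
        have h6 := card_nsmul_le_sum A (fun i => (SignType.sign (f i x) : ℝ) / q j * f i x)
          (|f l x| / q j) fun i hi => by
            rw [div_mul_eq_mul_div, sign_mul_self]
            exact div_le_div_of_nonneg_right (hG i hi l (mem_sdiff.1 hl).2) (hq j).le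
        have h7 := (h6.trans (le_abs_self _)).trans h5
        rw [hA, nsmul_eq_mul] at h7
        rw [le_div_iff₀ (hq j)]
        refine le_trans (le_of_eq ?_) h7
        have := hq j
        push_cast; field_simp
      have h5 := bd _ φ.2 _ (fun l hl => (h1 l (mem_sdiff.1 hl).1).1) h4
      have h6 : ((φ.1 \ A).card : ℝ) ≤ q j * q i := by
        exact_mod_cast (card_le_card sdiff_subset).trans
          (h2.trans (Nat.mul_le_mul_right _ (q_mono.monotone hj)))
      have h7 : ((φ.1 \ A).card : ℝ) * (1 / q i * (‖x‖ / q j)) ≤ ‖x‖ := by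
        refine (mul_le_mul_of_nonneg_right h6 (by positivity)).trans (le_of_eq ?_)
        have := hq j; have := hq i; field_simp
      have h8 := hle x φ (Or.inr ⟨i, h1, h2, Or.inr h3⟩)
      rw [← sum_inter_add_sum_sdiff φ.1 A] at h8
      have := abs_sub (∑ l ∈ φ.1 ∩ A, φ.2 l * f l x + ∑ l ∈ φ.1 \ A, φ.2 l * f l x)
        (∑ l ∈ φ.1 \ A, φ.2 l * f l x)
      rw [add_sub_cancel_right] at this
      linarith
  · have e1 : ∀ A : Finset ℕ, ∑ i ∈ A, e i = ∑ i ∈ A, (1:ℝ) • e i := by simp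
    rw [one_mul, e1, e1]
    refine hge _ _ (norm_nonneg _) fun φ hφ => ?_
    rw [hs]
    rcases hφ with h | ⟨i, h1, h2, -⟩
    · refine (cs _ _ _ (sub φ A h) (by simp) (Real.sqrt_nonneg B.card) ?_).trans ?_
      · rw [Real.sq_sqrt (by positivity), ← hAB]
        exact_mod_cast card_le_card inter_subset_right
      · refine le_trans ?_ (hle _ (B, fun _ => 1 / √B.card) (Or.inl ?_))
        · rw [hs]; simp [← div_eq_mul_inv, le_abs_self]
        · simp only [sum_const, nsmul_eq_mul, one_div_pow, mul_one_div]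
          rw [Real.sq_sqrt (by positivity)]; exact div_self_le_one _
    rcases (φ.1 ∩ A).eq_empty_or_nonempty with h | ⟨l, hl⟩
    · simp [h]
    have h3 : i + 1 < j := q_mono.lt_iff_lt.1 (lt_of_pow_lt_pow_left₀ 2 (Nat.zero_le _)
      ((h1 l (mem_inter.1 hl).1).2.trans_lt (hA l (mem_inter.1 hl).2)))
    obtain ⟨S, hS, hS'⟩ := exists_subset_card_eq
      ((card_le_card (inter_subset_right : φ.1 ∩ A ⊆ A)).trans hAB.le)
    refine (bd _ _ _ (fun l hl => (h1 l (mem_inter.1 hl).1).1)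
      (b := 1) (by simp)).trans (le_trans ?_ (hle _ (S, fun _ => 1 / q i) (Or.inr ⟨i,
        fun l hl => ⟨(abs_of_pos (by have := hq i; positivity)).le,
          le_trans (Nat.le_add_right _ _) ((q_gap h3).trans (hB l (hS hl)))⟩,
        hS'.le.trans ((card_le_card inter_subset_left).trans h2),
        Or.inl fun l hl => (q_gap h3).trans (hB l (hS hl))⟩)))
    rw [hs, inter_eq_left.2 hS]
    simp only [sum_const, hS', nsmul_eq_mul]
    exact le_abs_self _
  · rintro ⟨C, hC⟩
    obtain ⟨i, hi⟩ := exists_nat_gt |C|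
    set N := q (i + 1) ^ 2 with hN
    set h := 2 * (i + 1) ^ 2 * q i ^ 2 with hh
    have hm : q (i + 1) * q i = 2 * h := by rw [q, hh]; ring
    have hhN : h ≤ N := by nlinarith [q_mono (Nat.lt_succ_self i), q_pos i]
    set ξ : ℕ → ℝ := fun l => if l < N - h then 1 else if l < N then 0 else (-1) ^ l with hξ
    have hξ1 : ∀ l, |ξ l| ≤ 1 := fun l => by simp only [hξ]; split_ifs <;> simp
    have hξ2 : ∀ l, N ≤ l → ξ l = (-1) ^ l := fun l hl => by
      simp only [hξ]; rw [if_neg (by omega), if_neg (by omega)]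
    set x := ∑ l ∈ range (N + 2 * h), ξ l • e l with hx
    set A := range (N - h) ∪ (Ico N (N + 2 * h)).filter Even with hA
    have a0 : ∑ l ∈ Ico N (N + 2 * h), (-1 : ℝ) ^ l = 0 := by simp [alt]
    have a1 : ((Ico N (N + 2 * h)).filter Even).card = h := by
      have : ((((Ico N (N + 2 * h)).filter Even).card : ℕ) : ℝ) =
          ∑ l ∈ Ico N (N + 2 * h), (1 + (-1 : ℝ) ^ l) / 2 := by
        rw [card_filter, Nat.cast_sum]
        refine sum_congr rfl fun l _ => ?_
        rcases Nat.even_or_odd l with g | g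
        · simp [g, g.neg_one_pow]
        · simp [Nat.not_even_iff_odd.2 g, g.neg_one_pow]
      rw [← sum_div, sum_add_distrib, a0] at this
      exact Nat.cast_injective (R := ℝ) (this.trans (by simp))
    have a2 := hC x (i + 1) A (by
      rw [hA, card_union_of_disjoint (disjoint_left.2 fun l a b => by
        simp only [mem_range, mem_filter, mem_Ico] at a b; omega), card_range, a1]
      show _ = N
      omega) fun l hl k _ => by
        have : |f l x| = 1 := by
          simp only [hA, mem_union, mem_range, mem_filter, mem_Ico] at hl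
          rw [hx, hc, if_pos (mem_range.2 (by omega))]
          rcases hl with g | g
          · simp [hξ, g]
          · simp [hξ2 l g.1.1]
        rw [this, hx, hc]
        split_ifs
        · exact hξ1 k
        · simp
    have a3 := hle (x - P e f A x) (Ico N (N + 2 * h), fun _ => 1 / q i) (Or.inr ⟨i,
      fun l hl => ⟨(abs_of_pos (by have := hq i; positivity)).le, (mem_Ico.1 hl).1⟩,
      by simp [hm], Or.inr ⟨⟨_, rfl⟩, rfl⟩⟩)
    have a4 : ∑ l ∈ Ico N (N + 2 * h), 1 / (q i : ℝ) * f l (x - P e f A x) =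
        ∑ l ∈ Ico N (N + 2 * h), 1 / (q i : ℝ) * (((-1 : ℝ) ^ l - 1) / 2) :=
      sum_congr rfl fun l hl => by
        have hl' := mem_Ico.1 hl
        have e1 : f l x = (-1) ^ l := by rw [hx, hc, if_pos (mem_range.2 hl'.2), hξ2 l hl'.1]
        rw [map_sub, e1, P, hc, e1]
        rcases Nat.even_or_odd l with g | g
        · rw [if_pos (mem_union_right _ (mem_filter.2 ⟨hl, g⟩)), g.neg_one_pow]; simp
        · rw [if_neg, g.neg_one_pow]
          · norm_num
          · simp only [hA, mem_union, mem_range, mem_filter, Nat.not_even_iff_odd.2 g,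
              and_false, or_false]
            omega
    simp only at a3
    rw [a4, ← mul_sum, ← sum_div, sum_sub_distrib, a0] at a3
    have hi1 : (0:ℝ) < i + 1 := by positivity
    have a5 : ‖x - P e f (range N) x‖ ≤ 2 * (i + 1) * q i := by
      have e1 : x - P e f (range N) x = ∑ l ∈ Ico N (N + 2 * h), (-1 : ℝ) ^ l • e l := by
        rw [sub_eq_iff_eq_add', P, hx, ← sum_range_add_sum_Ico _ (Nat.le_add_right N (2 * h))]
        congr 1
        · refine sum_congr rfl fun l hl => ?_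
          rw [sum_range_add_sum_Ico _ (Nat.le_add_right N (2 * h)), hc,
            if_pos (mem_range.2 (by have := mem_range.1 hl; omega))]
        · exact sum_congr rfl fun l hl => by rw [hξ2 l (mem_Ico.1 hl).1]
      have q1 : (1:ℝ) ≤ q i := Nat.one_le_cast.2 (q_pos i)
      have q2 : (q i : ℝ) ≤ 2 * (i + 1) * q i :=
        le_mul_of_one_le_left (hq i).le (by linarith [Nat.cast_nonneg (α := ℝ) i])
      refine hge _ _ (by positivity) fun φ hφ => ?_
      rw [e1, hs]
      rcases hφ with g | ⟨k, g1, g2, g3⟩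
      · refine cs _ _ _ (sub φ _ g) (by simp) (by positivity) ?_
        have := card_le_card (inter_subset_right : φ.1 ∩ Ico N (N + 2 * h) ⊆ _)
        rw [Nat.card_Ico, add_tsub_cancel_left, hh] at this
        refine (Nat.cast_le.2 this).trans (le_of_eq ?_)
        push_cast; ring
      rcases lt_trichotomy k i with hk | rfl | hk
      · refine (bd _ _ _ (fun l hl => (g1 l (mem_inter.1 hl).1).1) (b := 1) (by simp)).trans
          (le_trans ?_ q2)
        rw [mul_one, mul_one_div, div_le_iff₀ (hq k)]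
        exact_mod_cast (card_le_card inter_subset_left).trans
          (g2.trans (Nat.mul_le_mul_right _ (q_mono.monotone hk)))
      · rcases g3 with g3 | ⟨⟨r, g3⟩, g4⟩
        · rw [sum_eq_zero, abs_zero]
          · positivity
          · intro l hl
            have := g3 l (mem_inter.1 hl).1
            have := (mem_Ico.1 (mem_inter.1 hl).2).2
            omega
        · rw [g3, g4, Ico_inter_Ico, max_self, ← mul_sum, abs_mul]
          refine le_trans (mul_le_one₀ ?_ (abs_nonneg _) ?_) (q1.trans q2)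
          · rw [abs_of_pos (by positivity)]; exact (div_le_one (hq k)).2 q1
          · rcases le_total N (min r (N + 2 * h)) with g | g
            · obtain ⟨d, hd⟩ := Nat.exists_eq_add_of_le g
              rw [hd, alt]; split_ifs <;> simp
            · rw [Ico_eq_empty_of_le g, sum_empty, abs_zero]; exact zero_le_one
      · rw [sum_eq_zero, abs_zero]
        · positivity
        · intro l hl
          have := (g1 l (mem_inter.1 hl).1).2
          have := (mem_Ico.1 (mem_inter.1 hl).2).2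
          have := q_gap (i := i) (j := k + 1) (by omega)
          omega
    have a6 : |1 / (q i : ℝ) * ((0 - ∑ l ∈ Ico N (N + 2 * h), (1:ℝ)) / 2)| =
        (i + 1) * (2 * (i + 1) * q i) := by
      have := hq i
      rw [sum_const, Nat.card_Ico, add_tsub_cancel_left, ← abs_neg, abs_of_pos]
      · simp only [hh, nsmul_eq_mul]; push_cast; field_simp; ring
      · simp only [hh, nsmul_eq_mul, zero_sub, neg_div, mul_neg, neg_neg]; push_cast; positivity
    rw [a6] at a3
    have a7 := (a3.trans a2).trans ((mul_le_mul_of_nonneg_right (le_abs_self C)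
      (norm_nonneg _)).trans (mul_le_mul_of_nonneg_left a5 (abs_nonneg C)))
    have := le_of_mul_le_mul_right a7 (by have := hq i; positivity)
    linarith

end Pool.Agent.Results.MP_6095cf_an.Counter
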